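import Pool.Agent.BER.StmtsE
import Pool.Agent.Helper93_BEO.Fin

/-!
# Squad BER (MP_be01ff_an), row SPB: the radial spectrum of the ball
(adapted from `Helper76_BED/SPD.lean`)
-/

set_option autoImplicit false

namespace Pool.Agent.BER.H16

open Set Filter Topology MeasureTheory
open scoped InnerProductSpace ENNReal
open Pool.Agent.BE01 Pool.Agent.BEL Pool.Agent.BEF Pool.Agent.BEN Pool.Agent.BEH Pool.Agent.BEG
open Pool.Agent.BEO (Pl BB ev lap rho EvoStmt LpoStmt OroStmt)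
open Pool.Agent.BEO.H10 (fin_mu ae_BB mem_BB int_ev I_add I_C LL OO LL_add LL_C LL_rho_pow)

noncomputable section

/-- the moments -/
def mo {d : ℕ} {R : ℝ} (u : Lp ℝ 2 (mu (BB d R))) (k : ℕ) : ℝ :=
  ∫ z, u z * ev (rho d ^ k) z ∂(mu (BB d R))

theorem lap_one (d : ℕ) : lap (1 : Pl d) = 0 := by
  unfold lap
  simp

theorem LL_one (EVO : EvoStmt) {d : ℕ} {R μ : ℝ} (u : Lp ℝ 2 (mu (BB d R))) :
    LL μ u (1 : Pl d) = μ * mo u 0 := by
  unfold LL mo
  rw [lap_one, zero_add, I_C EVO, pow_zero]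

theorem LL_succ (EVO : EvoStmt) (LPO : LpoStmt) {d : ℕ} {R μ : ℝ} (u : Lp ℝ 2 (mu (BB d R)))
    (k : ℕ) : LL μ u (rho d ^ (k + 1)) =
      2 * ((k : ℝ) + 1) * (2 * k + d) * mo u k + μ * mo u (k + 1) := by
  unfold LL mo
  have h := LPO d 0 k (1 : Pl d) (MvPolynomial.isHomogeneous_one _ _) (lap_one d)
  rw [mul_one, mul_one] at h
  rw [h, I_add EVO, I_C EVO, I_C EVO]
  push_cast
  ring

theorem bd_succ {d : ℕ} (hd : 2 ≤ d) (k : ℕ) :
    2 * ((k : ℝ) + 1) * (2 * k + d) * bd d (k + 1) = - bd d k := by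
  have h0 : (0 : ℝ) < d := by
    have : 0 < d := by omega
    exact_mod_cast this
  have h1 : 2 * ((k : ℝ) + 1) * (2 * k + d) ≠ 0 := by positivity
  show 2 * ((k : ℝ) + 1) * (2 * k + d) * (- bd d k / (2 * ((k : ℝ) + 1) * (2 * k + d))) = _
  rw [mul_div_cancel₀ _ h1]

/-- the identity -/
theorem sum1 {d : ℕ} (hd : 2 ≤ d) (μ R : ℝ) (m : ℕ → ℝ)
    (hm : ∀ k : ℕ, 2 * ((k : ℝ) + 1) * (2 * k + d) * m k + μ * m (k + 1) =
      (R ^ 2) ^ (k + 1) * (μ * m 0))
    (K : ℕ) : ∑ k ∈ Finset.range (K + 1), bd d k * μ ^ k * ((R ^ 2) ^ k * (μ * m 0)) =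
      bd d K * μ ^ (K + 1) * m K := by
  induction K with
  | zero =>
    rw [Finset.sum_range_one]
    ring
  | succ K ih =>
    rw [Finset.sum_range_succ, ih, ← hm K]
    have h := bd_succ hd K
    have e : bd d (K + 1) * μ ^ (K + 1) *
        (2 * ((K : ℝ) + 1) * (2 * K + d) * m K + μ * m (K + 1)) =
        (2 * ((K : ℝ) + 1) * (2 * K + d) * bd d (K + 1)) * μ ^ (K + 1) * m K +
          bd d (K + 1) * μ ^ (K + 1 + 1) * m (K + 1) := by ring
    rw [e, h]
    ring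

theorem ev_rho (EVO : EvoStmt) {d : ℕ} (k : ℕ) (z : En d) :
    ev (rho d ^ k) z = (‖z‖ ^ 2) ^ k := by
  induction k with
  | zero =>
    have h := (EVO d).2.2.2.2.1 1 z
    rw [MvPolynomial.C_1] at h
    rw [pow_zero, pow_zero, h]
  | succ k ih => rw [pow_succ, (EVO d).2.2.2.1, ih, (EVO d).2.2.2.2.2.1, pow_succ (‖z‖ ^ 2)]

theorem mo_bound (EVO : EvoStmt) {d : ℕ} {R : ℝ} (u : Lp ℝ 2 (mu (BB d R))) :
    ∃ M : ℝ, 0 ≤ M ∧ ∀ k : ℕ, |mo u k| ≤ M * (R ^ 2) ^ k := by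
  have := fin_mu d R
  have hi : Integrable (fun z => u z) (mu (BB d R)) :=
    (Lp.memLp u).integrable (by norm_num)
  refine ⟨∫ z, |u z| ∂(mu (BB d R)), integral_nonneg fun z => abs_nonneg _, fun k => ?_⟩
  unfold mo
  rw [← integral_mul_const]
  refine (abs_integral_le_integral_abs).trans ?_
  refine integral_mono_ae (int_ev EVO u _).abs (hi.abs.mul_const _) ?_
  filter_upwards [ae_BB d R] with z hz
  show |u z * ev (rho d ^ k) z| ≤ |u z| * (R ^ 2) ^ k
  rw [ev_rho EVO, abs_mul, abs_of_nonneg (by positivity : (0 : ℝ) ≤ (‖z‖ ^ 2) ^ k)]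
  apply mul_le_mul_of_nonneg_left _ (abs_nonneg _)
  apply pow_le_pow_left₀ (by positivity)
  apply pow_le_pow_left₀ (norm_nonneg _) (mem_BB hz).le

theorem spb0 (EVO : EvoStmt) (LPO : LpoStmt) (ORO : OroStmt) (jsd : JsdStmt) (syb : SybStmt)
    (rdd : RddStmt) : SpbStmt := by
  intro d R x u hd hR hx hinv hu hj
  have hd1 : 1 ≤ d := by omega
  obtain ⟨μ, hμd⟩ : ∃ μ : ℝ, μ = (x / R) ^ 2 := ⟨_, rfl⟩
  have hμ : 0 < μ := by
    rw [hμd]
    positivity
  rw [← hμd] at hu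
  have hO : OO μ u := fun Q => ORO d R μ u Q hd1 hR hu
  have hm : ∀ k : ℕ, 2 * ((k : ℝ) + 1) * (2 * k + d) * mo u k + μ * mo u (k + 1) =
      (R ^ 2) ^ (k + 1) * (μ * mo u 0) := by
    intro k
    have h := LL_rho_pow EVO μ u hO 1 (k + 1)
    rw [mul_one, LL_succ EVO LPO, LL_one EVO] at h
    exact h
  have hpow : ∀ k : ℕ, μ ^ k * (R ^ 2) ^ k = x ^ (2 * k) := by
    intro k
    rw [hμd, ← mul_pow, ← mul_pow, div_mul_cancel₀ x hR.ne', pow_mul]
  obtain ⟨M, hM0, hM⟩ := mo_bound EVO u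
  have hsum := (jsd d hd).1 x
  -- the conclusion from `mo u 0 = 0`
  have fin : mo u 0 = 0 → u = 0 := by
    intro h0
    obtain ⟨hdom, hsym⟩ := syb.1 d R hd1 hR
    apply rdd d (BB d R) u hd1 hdom hsym hinv
    intro b
    have e : ∫ z, u z * (‖z‖ ^ 2) ^ b ∂(mu (BB d R)) = mo u b := by
      unfold mo
      refine integral_congr_ae (Eventually.of_forall fun z => ?_)
      show u z * (‖z‖ ^ 2) ^ b = u z * ev (rho d ^ b) z
      rw [ev_rho EVO]
    rw [e]
    induction b with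
    | zero => exact h0
    | succ b ih =>
      have ih' : mo u b = 0 := by
        apply ih
        unfold mo
        refine integral_congr_ae (Eventually.of_forall fun z => ?_)
        show u z * (‖z‖ ^ 2) ^ b = u z * ev (rho d ^ b) z
        rw [ev_rho EVO]
      have h := hm b
      rw [ih', h0, mul_zero, mul_zero, mul_zero, zero_add] at h
      rcases mul_eq_zero.mp h with h | h
      · exact absurd h hμ.ne'
      · exact h
  have hs : ∀ K : ℕ, |bd d K * μ ^ (K + 1) * mo u K| ≤ μ * M * |bd d K * x ^ (2 * K)| := by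
    intro K
    rw [abs_mul, abs_mul, abs_of_nonneg (by positivity : (0 : ℝ) ≤ μ ^ (K + 1)), abs_mul,
      abs_of_nonneg (by positivity : (0 : ℝ) ≤ x ^ (2 * K))]
    calc |bd d K| * μ ^ (K + 1) * |mo u K| ≤ |bd d K| * μ ^ (K + 1) * (M * (R ^ 2) ^ K) := by
          apply mul_le_mul_of_nonneg_left (hM K)
          positivity
      _ = μ * M * (|bd d K| * (μ ^ K * (R ^ 2) ^ K)) := by ring
      _ = _ := by rw [hpow]
  apply fin
  have t1 : Tendsto (fun K : ℕ => bd d K * μ ^ (K + 1) * mo u K) atTop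
      (𝓝 (jd d x * (μ * mo u 0))) := by
    have h := ((hsum.hasSum.tendsto_sum_nat).comp (tendsto_add_atTop_nat 1)).mul_const
      (μ * mo u 0)
    refine h.congr fun K => ?_
    rw [← sum1 hd μ R (mo u) hm K]
    simp only [Function.comp_apply]
    rw [Finset.sum_mul]
    refine Finset.sum_congr rfl fun k _ => ?_
    rw [← hpow]
    ring
  have t2 : Tendsto (fun K : ℕ => bd d K * μ ^ (K + 1) * mo u K) atTop (𝓝 0) := by
    have h := ((hsum.tendsto_atTop_zero).abs).const_mul (μ * M)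
    rw [abs_zero, mul_zero] at h
    exact squeeze_zero_norm (fun K => by rw [Real.norm_eq_abs]; exact hs K) h
  have h3 := tendsto_nhds_unique t1 t2
  rcases mul_eq_zero.mp h3 with h | h
  · exact absurd h hj
  · rcases mul_eq_zero.mp h with h | h
    · exact absurd h hμ.ne'
    · exact h

theorem spb (jsd : JsdStmt) (syb : SybStmt) (rdd : RddStmt) : SpbStmt :=
  spb0 Pool.Agent.BEO.Fin.evo Pool.Agent.BEO.Fin.lpo Pool.Agent.BEO.Fin.oro jsd syb rdd

end

end Pool.Agent.BER.H16
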